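import Mathlib
import Pool.Agent.Q14.MCN322

set_option autoImplicit false

/-! # Two inequivalent MC-circles and two inequivalent MC-sets of `322` -/

namespace Pool.Agent.Results.MP_ab672e_co.TwoCircles

open Pool.Agent.Q14.MC

/-- The squared Euclidean distance of two points of the plane. -/
def dsq (p q : ℝ × ℝ) : ℝ := (p.1 - q.1) ^ 2 + (p.2 - q.2) ^ 2

/-- A lattice point as a point of the plane. -/
def toPlane (z : ℤ × ℤ) : ℝ × ℝ := ((z.1 : ℝ), (z.2 : ℝ))

/-- A lattice symmetry: a map of the plane that preserves distances and maps the lattice `ℤ²` onto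
itself. -/
def IsLatticeSymmetry (g : ℝ × ℝ → ℝ × ℝ) : Prop :=
  (∀ p q : ℝ × ℝ, dsq (g p) (g q) = dsq p q) ∧ g '' Set.range toPlane = Set.range toPlane

/-- The circle with centre `(x, y)` and radius `r`, as a curve in the plane. -/
def circle (x y r : ℝ) : Set (ℝ × ℝ) := {p | dsq p (x, y) = r ^ 2}

/-- The set of lattice points enclosed by the circle with centre `(x, y)` and radius `r`, as points
of the plane. -/
def enclosedSet (x y r : ℝ) : Set (ℝ × ℝ) := toPlane '' enclosed x y r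

/-! ## The circles -/

theorem centre_eq {g : ℝ × ℝ → ℝ × ℝ} (hg : IsLatticeSymmetry g) {x y x' y' r : ℝ} (hr : 0 < r)
    (h : g '' circle x y r = circle x' y' r) : g (x, y) = (x', y') := by
  have key : ∀ q ∈ circle x' y' r, dsq q (g (x, y)) = r ^ 2 := by
    intro q hq
    rw [← h] at hq
    obtain ⟨p, hp, rfl⟩ := hq
    rw [hg.1]
    exact hp
  have k1 := key (x' + r, y') (by simp only [circle, dsq, Set.mem_setOf_eq]; ring)
  have k2 := key (x' - r, y') (by simp only [circle, dsq, Set.mem_setOf_eq]; ring)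
  have k3 := key (x', y' + r) (by simp only [circle, dsq, Set.mem_setOf_eq]; ring)
  have k4 := key (x', y' - r) (by simp only [circle, dsq, Set.mem_setOf_eq]; ring)
  simp only [dsq] at k1 k2 k3 k4
  have e1 : r * (x' - (g (x, y)).1) = 0 := by linear_combination (k1 - k2) / 4
  have e2 : r * (y' - (g (x, y)).2) = 0 := by linear_combination (k3 - k4) / 4
  have f1 : x' - (g (x, y)).1 = 0 := (mul_eq_zero.1 e1).resolve_left hr.ne'
  have f2 : y' - (g (x, y)).2 = 0 := (mul_eq_zero.1 e2).resolve_left hr.ne'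
  refine Prod.ext ?_ ?_
  · show (g (x, y)).1 = x'
    linarith
  · show (g (x, y)).2 = y'
    linarith

theorem not_circle {g : ℝ × ℝ → ℝ × ℝ} (hg : IsLatticeSymmetry g) {r : ℝ} (hr : 0 < r) :
    g '' circle (-9 / 34) (-9 / 34) r ≠ circle (-1 / 2) (-3 / 34) r := by
  intro h
  have hc := centre_eq hg hr h
  have hz : g (toPlane (0, 0)) ∈ Set.range toPlane := by
    rw [← hg.2]
    exact ⟨_, ⟨(0, 0), rfl⟩, rfl⟩
  obtain ⟨⟨a, b⟩, hab⟩ := hz
  have hd := hg.1 (toPlane (0, 0)) (-9 / 34, -9 / 34)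
  rw [← hab, hc] at hd
  simp only [dsq, toPlane] at hd
  push_cast at hd
  have h1 : (1 : ℝ) ≤ (2 * a + 1) ^ 2 := by
    have h2 : (1 : ℤ) ≤ (2 * a + 1) ^ 2 := by
      have : (2 * a + 1) ≠ 0 := by omega
      have := Int.one_le_abs this
      nlinarith [sq_abs (2 * a + 1)]
    exact_mod_cast h2
  nlinarith [sq_nonneg ((b : ℝ) - -3 / 34)]

/-! ## The enclosed sets -/

/-- The lattice points enclosed by the first circle. -/
noncomputable def A : Finset (ℤ × ℤ) := (Finset.Icc (-12) 12 ×ˢ Finset.Icc (-12) 12).filter fun p : ℤ × ℤ =>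
  (34 * p.1 + 9) ^ 2 + (34 * p.2 + 9) ^ 2 < 120250

/-- The lattice points enclosed by the second circle. -/
noncomputable def B : Finset (ℤ × ℤ) := (Finset.Icc (-12) 12 ×ˢ Finset.Icc (-12) 12).filter fun p : ℤ × ℤ =>
  (34 * p.1 + 17) ^ 2 + (34 * p.2 + 3) ^ 2 < 120250

theorem enclosed_A : enclosed (-9 / 34) (-9 / 34) (Real.sqrt (60125 / 578)) = ↑A := by
  ext p
  simp only [enclosed, Set.mem_setOf_eq, A, Finset.coe_filter, Finset.mem_product, Finset.mem_Icc]
  rw [Real.sq_sqrt (by norm_num)]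
  constructor
  · intro h
    have h1 : (34 * (p.1 : ℝ) + 9) ^ 2 + (34 * p.2 + 9) ^ 2 < 120250 := by nlinarith
    have h2 : (34 * p.1 + 9) ^ 2 + (34 * p.2 + 9) ^ 2 < 120250 := by exact_mod_cast h1
    refine ⟨⟨⟨?_, ?_⟩, ⟨?_, ?_⟩⟩, h2⟩
    · by_contra hc
      have : p.1 ≤ -13 := by omega
      nlinarith [sq_nonneg (34 * p.2 + 9)]
    · by_contra hc
      have : 13 ≤ p.1 := by omega
      nlinarith [sq_nonneg (34 * p.2 + 9)]
    · by_contra hc
      have : p.2 ≤ -13 := by omega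
      nlinarith [sq_nonneg (34 * p.1 + 9)]
    · by_contra hc
      have : 13 ≤ p.2 := by omega
      nlinarith [sq_nonneg (34 * p.1 + 9)]
  · rintro ⟨-, h2⟩
    have h1 : (34 * (p.1 : ℝ) + 9) ^ 2 + (34 * p.2 + 9) ^ 2 < 120250 := by exact_mod_cast h2
    nlinarith

theorem enclosed_B : enclosed (-1 / 2) (-3 / 34) (Real.sqrt (60125 / 578)) = ↑B := by
  ext p
  simp only [enclosed, Set.mem_setOf_eq, B, Finset.coe_filter, Finset.mem_product, Finset.mem_Icc]
  rw [Real.sq_sqrt (by norm_num)]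
  constructor
  · intro h
    have h1 : (34 * (p.1 : ℝ) + 17) ^ 2 + (34 * p.2 + 3) ^ 2 < 120250 := by nlinarith
    have h2 : (34 * p.1 + 17) ^ 2 + (34 * p.2 + 3) ^ 2 < 120250 := by exact_mod_cast h1
    refine ⟨⟨⟨?_, ?_⟩, ⟨?_, ?_⟩⟩, h2⟩
    · by_contra hc
      have : p.1 ≤ -13 := by omega
      nlinarith [sq_nonneg (34 * p.2 + 3)]
    · by_contra hc
      have : 13 ≤ p.1 := by omega
      nlinarith [sq_nonneg (34 * p.2 + 3)]
    · by_contra hc
      have : p.2 ≤ -13 := by omega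
      nlinarith [sq_nonneg (34 * p.1 + 17)]
    · by_contra hc
      have : 13 ≤ p.2 := by omega
      nlinarith [sq_nonneg (34 * p.1 + 17)]
  · rintro ⟨-, h2⟩
    have h1 : (34 * (p.1 : ℝ) + 17) ^ 2 + (34 * p.2 + 3) ^ 2 < 120250 := by exact_mod_cast h2
    nlinarith

/-- The sum of all squared distances. -/
theorem sum_dsq (S : Finset (ℤ × ℤ)) : ∑ p ∈ S, ∑ q ∈ S, dsq (toPlane p) (toPlane q) =
    (2 * ((S.card : ℤ) * ∑ p ∈ S, (p.1 ^ 2 + p.2 ^ 2) - (∑ p ∈ S, p.1) ^ 2
      - (∑ p ∈ S, p.2) ^ 2) : ℤ) := by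
  have h : ∀ p ∈ S, ∑ q ∈ S, dsq (toPlane p) (toPlane q) =
      (S.card : ℝ) * ((p.1 : ℝ) ^ 2 + (p.2 : ℝ) ^ 2) + ∑ q ∈ S, ((q.1 : ℝ) ^ 2 + (q.2 : ℝ) ^ 2)
        - 2 * p.1 * ∑ q ∈ S, (q.1 : ℝ) - 2 * p.2 * ∑ q ∈ S, (q.2 : ℝ) := by
    intro p _
    rw [Finset.mul_sum, Finset.mul_sum, ← nsmul_eq_mul, ← Finset.sum_const, ← Finset.sum_add_distrib,
      ← Finset.sum_sub_distrib, ← Finset.sum_sub_distrib]
    apply Finset.sum_congr rfl
    intro q _
    simp only [dsq, toPlane]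
    ring
  rw [Finset.sum_congr rfl h, Finset.sum_sub_distrib, Finset.sum_sub_distrib,
    Finset.sum_add_distrib, ← Finset.mul_sum, ← Finset.sum_mul, ← Finset.sum_mul,
    ← Finset.mul_sum, ← Finset.mul_sum, Finset.sum_const, nsmul_eq_mul]
  push_cast
  ring

theorem invA : (2 * ((A.card : ℤ) * ∑ p ∈ A, (p.1 ^ 2 + p.2 ^ 2) - (∑ p ∈ A, p.1) ^ 2
      - (∑ p ∈ A, p.2) ^ 2) : ℤ) = 10621796 := by decide +kernel

theorem invB : (2 * ((B.card : ℤ) * ∑ p ∈ B, (p.1 ^ 2 + p.2 ^ 2) - (∑ p ∈ B, p.1) ^ 2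
      - (∑ p ∈ B, p.2) ^ 2) : ℤ) = 10625522 := by decide +kernel

theorem toPlane_inj : Function.Injective toPlane := by
  rintro ⟨a, b⟩ ⟨c, d⟩ h
  simp only [toPlane, Prod.mk.injEq, Int.cast_inj] at h
  rw [h.1, h.2]

theorem g_inj {g : ℝ × ℝ → ℝ × ℝ} (hg : IsLatticeSymmetry g) : Function.Injective g := by
  intro p q h
  have h1 := hg.1 p q
  rw [h] at h1
  simp only [dsq, sub_self] at h1
  have h2 : (p.1 - q.1) ^ 2 = 0 := by nlinarith [sq_nonneg (p.1 - q.1), sq_nonneg (p.2 - q.2)]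
  have h3 : (p.2 - q.2) ^ 2 = 0 := by nlinarith [sq_nonneg (p.1 - q.1), sq_nonneg (p.2 - q.2)]
  have h4 := pow_eq_zero_iff (two_ne_zero) |>.1 h2
  have h5 := pow_eq_zero_iff (two_ne_zero) |>.1 h3
  ext <;> linarith

theorem not_set {g : ℝ × ℝ → ℝ × ℝ} (hg : IsLatticeSymmetry g) :
    g '' (toPlane '' (↑A : Set (ℤ × ℤ))) ≠ toPlane '' (↑B : Set (ℤ × ℤ)) := by
  classical
  intro h
  have h1 : A.image (g ∘ toPlane) = B.image toPlane := by
    apply Finset.coe_injective
    rw [Finset.coe_image, Finset.coe_image, Set.image_comp]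
    exact h
  have inj1 : Function.Injective (g ∘ toPlane) := (g_inj hg).comp toPlane_inj
  have h2 : ∑ p ∈ A.image (g ∘ toPlane), ∑ q ∈ A.image (g ∘ toPlane), dsq p q
      = ∑ p ∈ A, ∑ q ∈ A, dsq (toPlane p) (toPlane q) := by
    rw [Finset.sum_image fun _ _ _ _ hh => inj1 hh]
    apply Finset.sum_congr rfl
    intro p _
    rw [Finset.sum_image fun _ _ _ _ hh => inj1 hh]
    apply Finset.sum_congr rfl
    intro q _
    exact hg.1 _ _
  have h3 : ∑ p ∈ B.image toPlane, ∑ q ∈ B.image toPlane, dsq p q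
      = ∑ p ∈ B, ∑ q ∈ B, dsq (toPlane p) (toPlane q) := by
    rw [Finset.sum_image fun _ _ _ _ hh => toPlane_inj hh]
    apply Finset.sum_congr rfl
    intro p _
    rw [Finset.sum_image fun _ _ _ _ hh => toPlane_inj hh]
  rw [h1, h3, sum_dsq, sum_dsq, invA, invB] at h2
  norm_num at h2

theorem x1 : N322.cert1.x = -9 / 34 := by unfold Cert.x N322.cert1; norm_num
theorem y1 : N322.cert1.y = -9 / 34 := by unfold Cert.y N322.cert1; norm_num
theorem x2 : N322.cert2.x = -1 / 2 := by unfold Cert.x N322.cert2; norm_num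
theorem y2 : N322.cert2.y = -3 / 34 := by unfold Cert.y N322.cert2; norm_num
theorem R_eq : N322.cert1.R = Real.sqrt (60125 / 578) := by
  unfold Cert.R N322.cert1
  push_cast
  have : (7696000 : ℝ) = 272 ^ 2 * (60125 / 578) := by norm_num
  rw [this, Real.sqrt_mul (by norm_num), Real.sqrt_sq (by norm_num)]
  field_simp

/-- The circles with squared radius `60125/578` and the centres `(-9/34, -9/34)` and
`(-1/2, -3/34)` are both MC-circles of `322`, and no lattice symmetry maps the first circle onto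
the second one, or the set of the lattice points enclosed by the first circle onto the set of the
lattice points enclosed by the second one. -/
theorem result :
    IsMCCircle 322 (-9 / 34) (-9 / 34) (Real.sqrt (60125 / 578)) ∧
    IsMCCircle 322 (-1 / 2) (-3 / 34) (Real.sqrt (60125 / 578)) ∧
    (∀ g : ℝ × ℝ → ℝ × ℝ, IsLatticeSymmetry g →
      g '' circle (-9 / 34) (-9 / 34) (Real.sqrt (60125 / 578))
        ≠ circle (-1 / 2) (-3 / 34) (Real.sqrt (60125 / 578)) ∧
      g '' enclosedSet (-9 / 34) (-9 / 34) (Real.sqrt (60125 / 578))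
        ≠ enclosedSet (-1 / 2) (-3 / 34) (Real.sqrt (60125 / 578))) := by
  have h1 := N322.good.left
  have h2 := N322.good.right
  rw [x1, y1, R_eq] at h1
  rw [x2, y2, R_eq] at h2
  refine ⟨h1, h2, fun g hg => ⟨not_circle hg (Real.sqrt_pos.2 (by norm_num)), ?_⟩⟩
  unfold enclosedSet
  rw [enclosed_A, enclosed_B]
  exact not_set hg

end Pool.Agent.Results.MP_ab672e_co.TwoCircles
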